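import Mathlib
import Pool.Agent.L5helper72.BW.Weighted

set_option autoImplicit false

/-!
# Lusztig's function `a` is bounded for every Coxeter group of finite rank

Let `(W, S)` be a Coxeter group with `S` finite.  The degree of a structure constant `f_{x,y,z}` of
the Hecke algebra is at most the total weight of a family of reflections that are right inversions
of `x` and left inversions of `y` and whose pairwise products have finite order (the walls of the
family cross pairwise).  Such families have at most `C` elements, where `C` depends only on `(W, S)`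
(an automorphism of finite order that is trivial modulo `3` is trivial).  Hence `a(w)` is bounded by
`C · max_s L(s)` for all `w` and all positive weight functions `L`.
-/

namespace Pool.Agent.Results.MP_0d46c2_al.CrossingFamilyBound

open Module Pool.Agent.TH5.BD Pool.Agent.L5helper72.BW

/-- For every Coxeter system of finite rank there is `C` such that for every positive weight
function `L`, with Hecke algebra `H`:

(0) `reflWeight` is the extension of `L` to reflections which is constant on conjugacy classes;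

(1) for all `x, y` there is a set `F` of at most `C` reflections `t` with `ℓ(xt) < ℓ(x)` and
`ℓ(ty) < ℓ(y)`, all whose pairwise products have finite order, such that every `f_{x,y,z}` has
degree at most the total weight of `F`;

(2) Lusztig's function is bounded by the largest total weight of such families;

(3) all `f_{x,y,z}` have degree at most `C · max L(s)` and `a(w) ≤ C · max L(s)` for all `w`. -/
theorem result {B : Type*} [Fintype B] {M : CoxeterMatrix B} {W : Type*} [Group W]
    (cs : CoxeterSystem M W) :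
    ∃ C : ℕ, ∀ (L : W → ℤ), IsWeight cs L → ∀ {H : Type*} [Ring H] [Algebra A H]
      (T : Basis W A H), IsHecke cs L T →
      (∀ (w : W) (i : B), reflWeight cs L (w * cs.simple i * w⁻¹) = L (cs.simple i)) ∧
      (∀ x y : W, ∃ F : Finset W, F.card ≤ C ∧
        (∀ t ∈ F, cs.IsReflection t ∧ cs.length (x * t) < cs.length x ∧
          cs.length (t * y) < cs.length y) ∧
        (∀ t ∈ F, ∀ t' ∈ F, IsOfFinOrder (t * t')) ∧
        ∀ z : W, (T.repr (T x * T y) z).degree ≤
          ((∑ t ∈ F, reflWeight cs L t : ℤ) : WithBot ℤ)) ∧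
      (∀ N : ℕ, (∀ F : Finset W, F.card ≤ C → (∀ t ∈ F, cs.IsReflection t) →
          (∀ t ∈ F, ∀ t' ∈ F, IsOfFinOrder (t * t')) → ∑ t ∈ F, reflWeight cs L t ≤ N) →
        ∀ (bar : H →+* H) (C' : Basis W A H), IsBar T bar → IsKL T bar C' →
          ∀ w : W, aFun C' w ≤ (N : ℕ∞)) ∧
      (∀ K : ℕ, (∀ i : B, L (cs.simple i) ≤ K) →
        (∀ x y z : W, (T.repr (T x * T y) z).degree ≤ (((C * K : ℕ) : ℤ) : WithBot ℤ)) ∧
        ∀ (bar : H →+* H) (C' : Basis W A H), IsBar T bar → IsKL T bar C' →
          ∀ w : W, aFun C' w ≤ ((C * K : ℕ) : ℕ∞)) := by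
  classical
  obtain ⟨C, hC⟩ := exists_family cs
  refine ⟨C, fun L hL H _ _ T hT => ?_⟩
  have hfam := hC L hL _ (hT.isSC hL)
  have hafun : ∀ N : ℕ, (∀ x y, DgH T (T x * T y) (N : ℤ)) →
      ∀ (bar : H →+* H) (C' : Basis W A H), IsBar T bar → IsKL T bar C' →
          ∀ w : W, aFun C' w ≤ (N : ℕ∞) := by
    intro N hd bar C' _ hC' w
    refine iSup_le fun x => iSup_le fun y => iSup_le fun n => iSup_le fun hn => ?_
    by_contra hc
    rw [not_le, Nat.cast_lt] at hc
    apply hn
    exact hC'.bound hd x y w n (by exact_mod_cast hc)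
  have hN : ∀ N : ℕ, (∀ F : Finset W, F.card ≤ C → (∀ t ∈ F, cs.IsReflection t) →
      (∀ t ∈ F, ∀ t' ∈ F, IsOfFinOrder (t * t')) → ∑ t ∈ F, reflWeight cs L t ≤ N) →
      ∀ x y, DgH T (T x * T y) (N : ℤ) := by
    intro N h x y z
    obtain ⟨F, h1, h2, h3, h4⟩ := hfam x y
    exact (h4 z).mono (h F h1 (fun t ht => (h2 t ht).1) h3)
  have hK : ∀ K : ℕ, (∀ i : B, L (cs.simple i) ≤ K) → ∀ F : Finset W, F.card ≤ C →
      (∀ t ∈ F, cs.IsReflection t) → (∀ t ∈ F, ∀ t' ∈ F, IsOfFinOrder (t * t')) →
      ∑ t ∈ F, reflWeight cs L t ≤ ((C * K : ℕ) : ℤ) := by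
    intro K hK F h1 h2 _
    calc ∑ t ∈ F, reflWeight cs L t ≤ ∑ _t ∈ F, (K : ℤ) := by
          refine Finset.sum_le_sum fun t ht => ?_
          obtain ⟨w, i, rfl⟩ := h2 t ht
          rw [reflWeight_conj hL]
          exact hK i
      _ = F.card * K := by rw [Finset.sum_const, nsmul_eq_mul]
      _ ≤ ((C * K : ℕ) : ℤ) := by
          push_cast
          exact mul_le_mul_of_nonneg_right (by exact_mod_cast h1) (by positivity)
  refine ⟨reflWeight_conj hL, fun x y => ?_, fun N h => hafun N (hN N h), fun K h => ?_⟩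
  · obtain ⟨F, h1, h2, h3, h4⟩ := hfam x y
    exact ⟨F, h1, h2, h3, fun z => dg_iff.1 (h4 z)⟩
  · exact ⟨fun x y z => dg_iff.1 (hN _ (hK K h) x y z), hafun _ (hN _ (hK K h))⟩

end Pool.Agent.Results.MP_0d46c2_al.CrossingFamilyBound
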